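import Mathlib
import Pool.Agent.H525.EX.Stm5
import Pool.Agent.H539.EX.GB

/-!
# Task EX/GB2 (helper740): assembly of the equations `A`, `B` and of the weighted symmetries for the
polynomials `u ^ 2 + t (u') ^ 2`
-/

set_option autoImplicit false

namespace Pool.Agent.H740.EX

open Polynomial UniqueFactorizationMonoid
open Pool.Agent.H985.Chow (mob)
open Pool.Agent.H525.QF
open Pool.Agent.H525.EX
open Pool.Agent.H539.EX (S5 S5_congr S5_mul S5_sub S5_sum symm5)
open scoped Classical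

section main

variable {K : Type} [Field K] [Fintype K]

omit [Fintype K] in
lemma monic_quad : (X ^ 2 + X : K[X]).Monic := by
  have h1 : (X ^ 2 + X : K[X]) = X * (X + C 1) := by
    rw [C_1]
    ring
  rw [h1]
  exact monic_X.mul (monic_X_add_C 1)

omit [Fintype K] in
lemma natDegree_quad : (X ^ 2 + X : K[X]).natDegree = 2 := by
  have h1 : (X ^ 2 + X : K[X]) = X * (X + C 1) := by
    rw [C_1]
    ring
  rw [h1, monic_X.natDegree_mul (monic_X_add_C 1), natDegree_X, natDegree_X_add_C]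

lemma F2_monic_I {m : ℕ} {v : K[X] × K[X]} (hv : v ∈ cI K m) : (F2 v).Monic := by
  unfold cI at hv
  rw [Finset.mem_filter, Finset.mem_product, mem_lt, mem_mon] at hv
  obtain ⟨⟨h1, h2, h3⟩, -⟩ := hv
  have h4 : ((X ^ 2 + X) * v.2 ^ 4 : K[X]).Monic := monic_quad.mul (h2.pow 4)
  have h5 : ((X ^ 2 + X) * v.2 ^ 4 : K[X]).natDegree = 2 + 4 * m := by
    rw [monic_quad.natDegree_mul (h2.pow 4), natDegree_quad, h2.natDegree_pow, h3]
  have h6 : v.1.natDegree ≤ m := by
    rcases eq_or_ne v.1 0 with h8 | h8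
    · rw [h8, natDegree_zero]
      exact Nat.zero_le _
    · rw [degree_eq_natDegree h8] at h1
      have h9 : v.1.natDegree < m + 1 := by exact_mod_cast h1
      exact Nat.lt_succ_iff.1 h9
  unfold F2
  refine h4.add_of_right ?_
  apply degree_lt_degree
  rw [h5]
  have h8 : (v.1 ^ 4).natDegree ≤ 4 * v.1.natDegree := natDegree_pow_le
  omega

lemma F2_monic_II {m : ℕ} {v : K[X] × K[X]} (hv : v ∈ cII K m) : (F2 v).Monic := by
  unfold cII at hv
  rw [Finset.mem_filter, Finset.mem_product, mem_lt, mem_mon] at hv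
  obtain ⟨⟨⟨h1, h2⟩, h3⟩, -⟩ := hv
  have h4 : (v.1 ^ 4 : K[X]).Monic := h1.pow 4
  unfold F2
  rcases eq_or_ne v.2 0 with h0 | h0
  · rw [h0]
    have h5 : (v.1 ^ 4 + (X ^ 2 + X) * (0 : K[X]) ^ 4 : K[X]) = v.1 ^ 4 := by ring
    rw [h5]
    exact h4
  refine h4.add_of_left ?_
  apply degree_lt_degree
  rw [h1.natDegree_pow, h2]
  rw [degree_eq_natDegree h0] at h3
  have h6 : v.2.natDegree < m := by exact_mod_cast h3
  have h7 : ((X ^ 2 + X) * v.2 ^ 4 : K[X]).natDegree ≤ 2 + 4 * v.2.natDegree := by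
    refine natDegree_mul_le.trans ?_
    rw [natDegree_quad]
    have := natDegree_pow_le (p := v.2) (n := 4)
    omega
  omega

/-- the weighted sum of the pairs -/
lemma inner2 (CC : ℕ → Finset (K[X] × K[X])) (wt : ℕ → K[X] × K[X] → ℝ) (n : ℕ) (a : ℝ)
    (b g : K[X])
    (hl : ∑ j ∈ Finset.range (n + 1), ∑ G ∈ mon K j,
      ∑ v ∈ (CC (n - j)).filter (fun v => g ^ 2 * b ∣ G ^ 2 * F2 v), wt (n - j) v = a) (c : ℝ) :
    ∑ j ∈ Finset.range (n + 1), ∑ G ∈ mon K j, ∑ v ∈ CC (n - j),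
      wt (n - j) v * (if g ^ 2 * b ∣ G ^ 2 * F2 v then c else 0) = c * a := by
  rw [← hl, Finset.mul_sum]
  refine Finset.sum_congr rfl fun j _ => ?_
  rw [Finset.mul_sum]
  refine Finset.sum_congr rfl fun G _ => ?_
  rw [Finset.mul_sum, Finset.sum_filter]
  refine Finset.sum_congr rfl fun v _ => ?_
  split_ifs
  · ring
  · ring

/-- the expansion of the weighted sums of the coefficients of the weights -/
lemma expn2 (hE : S_exp) {h : K[X] → ℕ → ℝ[X]} {s : K[X] → ℕ → ℕ → ℕ → ℝ} (hs : HypE h s)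
    (CC : ℕ → Finset (K[X] × K[X])) (wt : ℕ → K[X] × K[X] → ℝ)
    (hm : ∀ m, ∀ v ∈ CC m, (F2 v).Monic) (a : ℕ → K[X] → ℝ) (n k : ℕ)
    (hl : ∀ (i : ℕ) (b g : K[X]), b.Monic → Squarefree b → g ∈ mon K i →
      ∑ j ∈ Finset.range (n + 1), ∑ G ∈ mon K j,
        ∑ v ∈ (CC (n - j)).filter (fun v => g ^ 2 * b ∣ G ^ 2 * F2 v), wt (n - j) v =
        (if i ≤ n then a (n - i) b else 0)) :
    ∑ j ∈ Finset.range (n + 1), ∑ G ∈ mon K j, ∑ v ∈ CC (n - j),
      wt (n - j) v * (W h (G ^ 2 * F2 v)).coeff k =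
      S5 K k (fun _ i b g g' => (mob b : ℝ) * (Fintype.card K : ℝ) ^ i * SG s b g g' *
        (if i ≤ n then a (n - i) b else 0)) := by
  have h1 : ∀ j ∈ Finset.range (n + 1), ∀ G ∈ mon K j, ∀ v ∈ CC (n - j),
      wt (n - j) v * (W h (G ^ 2 * F2 v)).coeff k = S5 K k (fun _ i b g g' =>
        wt (n - j) v * (if g ^ 2 * b ∣ G ^ 2 * F2 v then
          (mob b : ℝ) * (Fintype.card K : ℝ) ^ i * SG s b g g' else 0)) := by
    intro j _ G hG v hv
    rw [mem_mon] at hG
    rw [← S5_mul]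
    have h2 := hE K h s hs (G ^ 2 * F2 v) ((hG.1.pow 2).mul (hm _ v hv)) k
    rw [h2]
    rfl
  rw [Finset.sum_congr rfl fun j hj => Finset.sum_congr rfl fun G hG =>
    Finset.sum_congr rfl fun v hv => h1 j hj G hG v hv]
  simp only [S5_sum]
  refine S5_congr fun l i _ b g g' hb hbs hg _ => ?_
  rw [mem_mon] at hb
  exact inner2 CC wt n _ b g (hl i b g hb.1 hbs hg) _

lemma T1_eq (ω : K → ℝ) (b τ : K[X]) (hτ : ∀ v : K[X] × K[X], b ∣ F2 v ↔ b ∣ v.1 + τ * v.2)
    (n i : ℕ) : (if i ≤ n then A1 ω (n - i) b else 0) = T1 ω b τ ((n : ℤ) - i) := by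
  unfold T1
  by_cases h : i ≤ n
  · have e : ((n : ℤ) - i).toNat = n - i := by omega
    rw [if_pos h, if_neg (by omega), e]
    unfold A1
    simp only [hτ]
  · rw [if_neg h, if_pos (by omega)]

lemma T0_eq (ω : K → ℝ) (b τ : K[X]) (hτ : ∀ v : K[X] × K[X], b ∣ F2 v ↔ b ∣ v.1 + τ * v.2)
    (n i : ℕ) : (if i ≤ n then A0 ω (n - i) b else 0) = T0 ω b τ ((n : ℤ) - i) := by
  unfold T0
  by_cases h : i ≤ n
  · have e : ((n : ℤ) - i).toNat = n - i := by omega
    rw [if_pos h, if_neg (by omega), e]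
    unfold A0
    simp only [hτ]
  · rw [if_neg h, if_pos (by omega)]

lemma g1_eq [CharP K 2] (hE : S_exp) (hL : S_lat2) (τ : K[X] → K[X])
    (hτ : ∀ b : K[X], b.Monic → Squarefree b → ∀ v : K[X] × K[X], b ∣ F2 v ↔ b ∣ v.1 + τ b * v.2)
    {h : K[X] → ℕ → ℝ[X]} {s : K[X] → ℕ → ℕ → ℕ → ℝ} (hs : HypE h s) (ω : K → ℝ) (n e : ℤ)
    (k : ℕ) (hk : n + e = k) :
    g1 ω h n e = S5 K k (fun _ i b g g' => (mob b : ℝ) * SG s b g g' *
      ((Fintype.card K : ℝ) ^ ((i : ℤ) - n - 1) * T1 ω b (τ b) (n - i))) := by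
  have hq0 : (Fintype.card K : ℝ) ≠ 0 := by exact_mod_cast Fintype.card_ne_zero
  unfold g1
  by_cases hn : 0 ≤ n
  · obtain ⟨N, rfl⟩ := Int.eq_ofNat_of_zero_le hn
    rw [if_pos ⟨hn, by omega⟩, hk, Int.toNat_natCast, Int.toNat_natCast]
    unfold G1
    rw [expn2 hE hs (cI K) (fun m v => ω (v.1.coeff m)) (fun m v hv => F2_monic_I hv)
      (fun m b => A1 ω m b) N k (fun i b g hb hbs hg => hL K ω N i b g hb hbs hg), S5_mul]
    refine S5_congr fun l i _ b g g' hb hbs _ _ => ?_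
    rw [mem_mon] at hb
    rw [T1_eq ω b (τ b) (hτ b hb.1 hbs) N i]
    have h1 : (Fintype.card K : ℝ) ^ ((i : ℤ) - (N : ℤ) - 1) =
        ((Fintype.card K : ℝ) ^ (N + 1))⁻¹ * (Fintype.card K : ℝ) ^ i := by
      rw [show ((i : ℤ) - (N : ℤ) - 1) = (i : ℤ) - ((N + 1 : ℕ) : ℤ) by push_cast; ring,
        zpow_sub₀ hq0, zpow_natCast, zpow_natCast, div_eq_mul_inv, mul_comm]
    rw [h1]
    ring
  · rw [if_neg (fun hh => hn hh.1)]
    symm
    have h1 : S5 K k (fun _ i b g g' => (mob b : ℝ) * SG s b g g' *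
        ((Fintype.card K : ℝ) ^ ((i : ℤ) - n - 1) * T1 ω b (τ b) (n - i))) =
        S5 K k (fun _ _ _ _ _ => 0) := by
      refine S5_congr fun l i _ b g g' _ _ _ _ => ?_
      have h2 : T1 ω b (τ b) (n - i) = 0 := by
        unfold T1
        rw [if_pos (by omega)]
      rw [h2, mul_zero, mul_zero]
    rw [h1]
    unfold S5
    simp only [Finset.sum_const_zero]

lemma g0_eq [CharP K 2] (hE : S_exp) (hL : S_lat2') (τ : K[X] → K[X])
    (hτ : ∀ b : K[X], b.Monic → Squarefree b → ∀ v : K[X] × K[X], b ∣ F2 v ↔ b ∣ v.1 + τ b * v.2)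
    {h : K[X] → ℕ → ℝ[X]} {s : K[X] → ℕ → ℕ → ℕ → ℝ} (hs : HypE h s) (ω : K → ℝ) (n e : ℤ)
    (k : ℕ) (hk : n + e = k) :
    g0 ω h n e = S5 K k (fun _ i b g g' => (mob b : ℝ) * SG s b g g' *
      ((Fintype.card K : ℝ) ^ ((i : ℤ) - n) * T0 ω b (τ b) (n - i))) := by
  have hq0 : (Fintype.card K : ℝ) ≠ 0 := by exact_mod_cast Fintype.card_ne_zero
  unfold g0
  by_cases hn : 0 ≤ n
  · obtain ⟨N, rfl⟩ := Int.eq_ofNat_of_zero_le hn
    rw [if_pos ⟨hn, by omega⟩, hk, Int.toNat_natCast, Int.toNat_natCast]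
    unfold G0
    rw [expn2 hE hs (cII K) (fun m v => ω (v.2.coeff (m - 1))) (fun m v hv => F2_monic_II hv)
      (fun m b => A0 ω m b) N k (fun i b g hb hbs hg => hL K ω N i b g hb hbs hg), S5_mul]
    refine S5_congr fun l i _ b g g' hb hbs _ _ => ?_
    rw [mem_mon] at hb
    rw [T0_eq ω b (τ b) (hτ b hb.1 hbs) N i]
    have h1 : (Fintype.card K : ℝ) ^ ((i : ℤ) - (N : ℤ)) =
        ((Fintype.card K : ℝ) ^ N)⁻¹ * (Fintype.card K : ℝ) ^ i := by
      rw [zpow_sub₀ hq0, zpow_natCast, zpow_natCast, div_eq_mul_inv, mul_comm]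
    rw [h1]
    ring
  · rw [if_neg (fun hh => hn hh.1)]
    symm
    have h1 : S5 K k (fun _ i b g g' => (mob b : ℝ) * SG s b g g' *
        ((Fintype.card K : ℝ) ^ ((i : ℤ) - n) * T0 ω b (τ b) (n - i))) =
        S5 K k (fun _ _ _ _ _ => 0) := by
      refine S5_congr fun l i _ b g g' _ _ _ _ => ?_
      have h2 : T0 ω b (τ b) (n - i) = 0 := by
        unfold T0
        rw [if_pos (by omega)]
      rw [h2, mul_zero, mul_zero]
    rw [h1]
    unfold S5
    simp only [Finset.sum_const_zero]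

end main

/-- **GB2.** -/
theorem t_gb2 : S_gb2 := by
  intro hE hL hL' hR hS hW1 hW0 K _ _ _ h s hs
  have hq0 : (Fintype.card K : ℝ) ≠ 0 := by exact_mod_cast Fintype.card_ne_zero
  obtain ⟨q, hq⟩ : ∃ q : ℝ, q = Fintype.card K := ⟨_, rfl⟩
  rw [← hq] at hq0
  -- the roots
  have hroot : ∀ b : K[X], ∃ τ : K[X], b.Monic → Squarefree b →
      ∀ v : K[X] × K[X], b ∣ F2 v ↔ b ∣ v.1 + τ * v.2 := by
    intro b
    by_cases hb : b.Monic ∧ Squarefree b
    · obtain ⟨τ, hτ⟩ := hR K b hb.1 hb.2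
      exact ⟨τ, fun _ _ => hτ⟩
    · exact ⟨0, fun h1 h2 => absurd ⟨h1, h2⟩ hb⟩
  choose τ hτ using hroot
  refine ⟨?_, ?_, ?_⟩
  · intro n e
    rw [← hq]
    by_cases hk : 0 ≤ n + e
    · obtain ⟨k, hk'⟩ := Int.eq_ofNat_of_zero_le hk
      obtain ⟨D, hD⟩ : ∃ D : K[X] → ℤ → ℝ, ∀ b m, D b m = q ^ (-m) *
          (T0 (fun _ => 1) b (τ b) m - q * T1 (fun _ => 1) b (τ b) (m - 1)) :=
        ⟨fun b m => q ^ (-m) * (T0 (fun _ => 1) b (τ b) m - q * T1 (fun _ => 1) b (τ b) (m - 1)),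
          fun _ _ => rfl⟩
      have hmain : ∀ n e : ℤ, n + e = k →
          g0 (fun _ => 1) h n e - q * g1 (fun _ => 1) h (n - 1) (e + 1) =
          S5 K k (fun _ i b g g' => (mob b : ℝ) * SG s b g g' * D b (n - i)) := by
        intro n e hne
        rw [g0_eq hE hL' τ hτ hs _ n e k hne, g1_eq hE hL τ hτ hs _ (n - 1) (e + 1) k (by omega),
          ← hq, S5_mul, S5_sub]
        refine S5_congr fun l i _ b g g' _ _ _ _ => ?_
        rw [hD]
        have e1 : (i : ℤ) - (n - 1) - 1 = -(n - i) := by ring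
        have e2 : (i : ℤ) - n = -(n - i) := by ring
        have e3 : n - 1 - (i : ℤ) = n - i - 1 := by ring
        rw [e1, e2, e3]
        ring
      rw [hmain n e hk', hmain e n (by omega)]
      refine symm5 hs D 0 ?_ n e k (by omega)
      intro b l hb hbs hbl m
      have h1 := (hS K b (τ b) l hb hbl m).1
      rw [← hq] at h1
      rw [hD, hD, h1, ← mul_assoc, ← zpow_add₀ hq0]
      have e1 : -m + (2 * m - (l : ℤ)) = -((l : ℤ) - m - 0) := by ring
      have e2 : (l : ℤ) - m - 0 = l - m := by ring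
      rw [e1, e2]
    · unfold g0 g1
      rw [if_neg (fun hh => hk hh.2), if_neg (fun hh => hk (by omega)),
        if_neg (fun hh => hk (by omega)), if_neg (fun hh => hk (by omega))]
  · intro n e
    by_cases hk : 0 ≤ n + e + 1
    · obtain ⟨k, hk'⟩ := Int.eq_ofNat_of_zero_le hk
      obtain ⟨D, hD⟩ : ∃ D : K[X] → ℤ → ℝ, ∀ b m, D b m = q ^ (-m - 1) *
          (q * T0 (fun _ => 1) b (τ b) m - T1 (fun _ => 1) b (τ b) m) :=
        ⟨fun b m => q ^ (-m - 1) * (q * T0 (fun _ => 1) b (τ b) m - T1 (fun _ => 1) b (τ b) m),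
          fun _ _ => rfl⟩
      have hmain : ∀ n e : ℤ, n + e + 1 = k →
          g0 (fun _ => 1) h n (e + 1) - g1 (fun _ => 1) h n (e + 1) =
          S5 K k (fun _ i b g g' => (mob b : ℝ) * SG s b g g' * D b (n - i)) := by
        intro n e hne
        rw [g0_eq hE hL' τ hτ hs _ n (e + 1) k (by omega),
          g1_eq hE hL τ hτ hs _ n (e + 1) k (by omega), ← hq, S5_sub]
        refine S5_congr fun l i _ b g g' _ _ _ _ => ?_
        rw [hD]
        have e1 : (i : ℤ) - n - 1 = -(n - i) - 1 := by ring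
        have e2 : q ^ ((i : ℤ) - n) = q ^ (-(n - (i : ℤ)) - 1) * q := by
          rw [← zpow_add_one₀ hq0]
          congr 1
          ring
        rw [e1, e2]
        ring
      rw [hmain n e hk', hmain e n (by omega)]
      refine symm5 hs D 1 ?_ n e k (by omega)
      intro b l hb hbs hbl m
      have h1 := (hS K b (τ b) l hb hbl m).2
      rw [← hq] at h1
      rw [hD, hD, h1, ← mul_assoc, ← zpow_add₀ hq0]
      have e1 : -m - 1 + (2 * m + 1 - (l : ℤ)) = -((l : ℤ) - m - 1) - 1 := by ring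
      rw [e1]
    · unfold g0 g1
      rw [if_neg (fun hh => hk (by omega)), if_neg (fun hh => hk (by omega)),
        if_neg (fun hh => hk (by omega)), if_neg (fun hh => hk (by omega))]
  · intro ω hω
    constructor
    · intro n e
      by_cases hk : 0 ≤ n + e
      · obtain ⟨k, hk'⟩ := Int.eq_ofNat_of_zero_le hk
        obtain ⟨D, hD⟩ : ∃ D : K[X] → ℤ → ℝ, ∀ b m, D b m = q ^ (-m) * T0 ω b (τ b) m :=
          ⟨fun b m => q ^ (-m) * T0 ω b (τ b) m, fun _ _ => rfl⟩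
        have hmain : ∀ n e : ℤ, n + e = k → g0 ω h n e =
            S5 K k (fun _ i b g g' => (mob b : ℝ) * SG s b g g' * D b (n - i)) := by
          intro n e hne
          rw [g0_eq hE hL' τ hτ hs ω n e k hne, ← hq]
          refine S5_congr fun l i _ b g g' _ _ _ _ => ?_
          rw [hD]
          have e2 : (i : ℤ) - n = -(n - i) := by ring
          rw [e2]
        rw [hmain n e hk', hmain e n (by omega)]
        refine symm5 hs D 0 ?_ n e k (by omega)
        intro b l hb hbs hbl m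
        have h1 := hW0 K ω hω b (τ b) l hb hbl m
        rw [← hq] at h1
        rw [hD, hD, h1, ← mul_assoc, ← zpow_add₀ hq0]
        have e1 : -m + (2 * m - (l : ℤ)) = -((l : ℤ) - m - 0) := by ring
        have e2 : (l : ℤ) - m - 0 = l - m := by ring
        rw [e1, e2]
      · unfold g0
        rw [if_neg (fun hh => hk hh.2), if_neg (fun hh => hk (by omega))]
    · intro n e
      by_cases hk : 0 ≤ n + e + 1
      · obtain ⟨k, hk'⟩ := Int.eq_ofNat_of_zero_le hk
        obtain ⟨D, hD⟩ : ∃ D : K[X] → ℤ → ℝ, ∀ b m, D b m = q ^ (-m - 1) * T1 ω b (τ b) m :=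
          ⟨fun b m => q ^ (-m - 1) * T1 ω b (τ b) m, fun _ _ => rfl⟩
        have hmain : ∀ n e : ℤ, n + e + 1 = k → g1 ω h n (e + 1) =
            S5 K k (fun _ i b g g' => (mob b : ℝ) * SG s b g g' * D b (n - i)) := by
          intro n e hne
          rw [g1_eq hE hL τ hτ hs ω n (e + 1) k (by omega), ← hq]
          refine S5_congr fun l i _ b g g' _ _ _ _ => ?_
          rw [hD]
          have e1 : (i : ℤ) - n - 1 = -(n - i) - 1 := by ring
          rw [e1]
        rw [hmain n e hk', hmain e n (by omega)]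
        refine symm5 hs D 1 ?_ n e k (by omega)
        intro b l hb hbs hbl m
        have h1 := hW1 K ω hω b (τ b) l hb hbl m
        rw [← hq] at h1
        rw [hD, hD, h1, ← mul_assoc, ← zpow_add₀ hq0]
        have e1 : -m - 1 + (2 * m + 1 - (l : ℤ)) = -((l : ℤ) - m - 1) - 1 := by ring
        rw [e1]
      · unfold g1
        rw [if_neg (fun hh => hk (by omega)), if_neg (fun hh => hk (by omega))]

end Pool.Agent.H740.EX
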